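import Pool.Agent.W533.LP.Stm
import Pool.Agent.W533.LP.Stm3

/-! Project LP of helper533: bookkeeping (LP-A). -/

set_option autoImplicit false

open MeasureTheory ProbabilityTheory

namespace Pool.Agent.W692.LP

open Pool.Agent.W533.LP

/-! ### measurability -/

theorem measG (m n : ℕ) :
    Measurable (fun z : (ℕ → ℕ) × (ℕ → ℕ) × (ℕ → ℕ → ℕ) => G z.1 z.2.1 z.2.2 m n) := by
  have hI : ∀ i, Measurable (fun z : (ℕ → ℕ) × (ℕ → ℕ) × (ℕ → ℕ → ℕ) => z.1 i) := fun i =>
    (measurable_pi_apply i).comp measurable_fst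
  have hJ : ∀ i, Measurable (fun z : (ℕ → ℕ) × (ℕ → ℕ) × (ℕ → ℕ → ℕ) => z.2.1 i) := fun i =>
    (measurable_pi_apply i).comp (measurable_fst.comp measurable_snd)
  have hW : ∀ i j, Measurable (fun z : (ℕ → ℕ) × (ℕ → ℕ) × (ℕ → ℕ → ℕ) => z.2.2 i j) :=
    fun i j => (measurable_pi_apply j).comp
      ((measurable_pi_apply i).comp (measurable_snd.comp measurable_snd))
  induction m generalizing n with
  | zero =>
    induction n with
    | zero => simp only [G]; exact measurable_const
    | succ n ih => simp only [G]; exact ih.add (hJ n)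
  | succ m ihm =>
    induction n with
    | zero => simp only [G]; exact (ihm 0).add (hI m)
    | succ n ih => simp only [G]; exact ((ihm (n + 1)).max ih).add (hW m n)

theorem measGr {Ω : Type} [MeasurableSpace Ω] (I J : ℕ → Ω → ℕ) (W : ℕ → ℕ → Ω → ℕ)
    (hI : ∀ i, Measurable (I i)) (hJ : ∀ j, Measurable (J j)) (hW : ∀ i j, Measurable (W i j))
    (m n : ℕ) : Measurable (Gr I J W m n) := by
  have h : Measurable (fun ω => ((fun i => I i ω, fun j => J j ω, fun i j => W i j ω) :
      (ℕ → ℕ) × (ℕ → ℕ) × (ℕ → ℕ → ℕ))) :=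
    (measurable_pi_iff.2 hI).prodMk ((measurable_pi_iff.2 hJ).prodMk
      (measurable_pi_iff.2 fun i => measurable_pi_iff.2 fun j => hW i j))
  exact (measG m n).comp h

theorem G_mono (I J : ℕ → ℕ) (W : ℕ → ℕ → ℕ) (m n : ℕ) :
    G I J W m n ≤ G I J W (m + 1) n ∧ G I J W m n ≤ G I J W m (n + 1) := by
  constructor
  · cases n with
    | zero => simp only [G]; omega
    | succ n => simp only [G]; have := le_max_left (G I J W m (n + 1)) (G I J W (m + 1) n); omega
  · cases m with
    | zero => simp only [G]; omega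
    | succ m => simp only [G]; have := le_max_right (G I J W m (n + 1)) (G I J W (m + 1) n); omega

theorem aMeas : AMeas := ⟨measG, fun I J W hI hJ hW m n => measGr I J W hI hJ hW m n, G_mono⟩

/-! ### laws -/

theorem law1 {Ω Ω' : Type} [MeasurableSpace Ω] [MeasurableSpace Ω'] {μ : Measure Ω}
    {μ' : Measure Ω'} [IsProbabilityMeasure μ] [IsProbabilityMeasure μ'] {X : Ω → ℕ} {Y : Ω' → ℕ}
    (hX : Measurable X) (hY : Measurable Y)
    (h : ∀ k, μ.real {ω | X ω = k} = μ'.real {ω | Y ω = k}) : μ.map X = μ'.map Y := by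
  refine Measure.ext_of_singleton fun k => ?_
  rw [Measure.map_apply hX (measurableSet_singleton k),
    Measure.map_apply hY (measurableSet_singleton k)]
  have h1 := h k
  rw [measureReal_def, measureReal_def] at h1
  exact (ENNReal.toReal_eq_toReal_iff' (measure_ne_top _ _) (measure_ne_top _ _)).1 h1

theorem transfer {Ω Ω' ι : Type} [MeasurableSpace Ω] [MeasurableSpace Ω']
    (μ : Measure Ω) (μ' : Measure Ω') (p : ι → ℝ) (X : ι → Ω → ℕ) (Y : ι → Ω' → ℕ)
    (hX : GeoFam μ p X) (hY : GeoFam μ' p Y) :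
    Measure.map (fun ω i => X i ω) μ = Measure.map (fun ω i => Y i ω) μ' := by
  have := hX.prob
  have := hY.prob
  rw [hX.indep.map_fun_eq_infinitePi_map hX.meas, hY.indep.map_fun_eq_infinitePi_map hY.meas]
  congr 1
  funext i
  exact law1 (hX.meas i) (hY.meas i) fun k => by rw [hX.law, hY.law]

theorem pTransfer : PTransfer := fun μ μ' p X Y hX hY => transfer μ μ' p X Y hX hY

theorem exists_geo (p : ℝ) (h0 : 0 ≤ p) (h1 : p < 1) :
    ∃ P : Measure ℕ, IsProbabilityMeasure P ∧ ∀ k : ℕ, P.real {k} = (1 - p) * p ^ k := by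
  have hs : HasSum (fun k : ℕ => (1 - p) * p ^ k) 1 := by
    have h2 := (hasSum_geometric_of_lt_one h0 h1).mul_left (1 - p)
    rwa [mul_inv_cancel₀ (by linarith)] at h2
  have hn : ∀ k : ℕ, 0 ≤ (1 - p) * p ^ k := fun k => mul_nonneg (by linarith) (pow_nonneg h0 k)
  have hs2 : HasSum (fun k : ℕ => ENNReal.ofReal ((1 - p) * p ^ k)) 1 := by
    have h3 := ENNReal.ofReal_tsum_of_nonneg hn hs.summable
    rw [hs.tsum_eq, ENNReal.ofReal_one] at h3
    rw [h3]
    exact ENNReal.summable.hasSum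
  let f : PMF ℕ := ⟨fun k => ENNReal.ofReal ((1 - p) * p ^ k), hs2⟩
  refine ⟨f.toMeasure, inferInstance, fun k => ?_⟩
  rw [measureReal_def, PMF.toMeasure_apply_singleton _ _ (measurableSet_singleton k)]
  exact ENNReal.toReal_ofReal (hn k)

theorem exist (ι : Type) (p : ι → ℝ) (hp : ∀ i, 0 ≤ p i ∧ p i < 1) :
    ∃ (Ω : Type) (_ : MeasurableSpace Ω) (μ : Measure Ω) (X : ι → Ω → ℕ), GeoFam μ p X := by
  choose P hP hPk using fun i => exists_geo (p i) (hp i).1 (hp i).2
  refine ⟨ι → ℕ, inferInstance, Measure.infinitePi P, fun i ω => ω i, ?_⟩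
  refine ⟨inferInstance, hp, fun i => measurable_pi_apply i, ?_, fun i k => ?_⟩
  · exact iIndepFun_infinitePi (X := fun _ x => x) (fun i => measurable_id)
  · rw [← hPk i k, measureReal_def, measureReal_def]
    congr 1
    have h := Measure.infinitePi_map_eval P i
    conv_rhs => rw [← h]
    rw [Measure.map_apply (measurable_pi_apply i) (measurableSet_singleton k)]
    rfl

theorem pExist : PExist := fun ι _ p hp => exist ι p hp

/-- reindexing -/
theorem GeoFam.re {Ω ι ι' : Type} [MeasurableSpace Ω] {μ : Measure Ω} {p : ι → ℝ}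
    {X : ι → Ω → ℕ} (h : GeoFam μ p X) (f : ι' → ι) (hf : Function.Injective f) :
    GeoFam μ (fun i => p (f i)) (fun i => X (f i)) :=
  ⟨h.prob, fun i => h.pos _, fun i => h.meas _, h.indep.precomp hf, fun i k => h.law _ k⟩

theorem aLaw : ALaw := by
  intro Ω Ω' κ _ _ _ μ μ' q a I J W I' J' W' c X X' h h' F hF
  have ht := transfer μ μ' _ _ _ h h'
  let P : (ℕ ⊕ ℕ ⊕ (ℕ × ℕ) ⊕ κ → ℕ) → (ℕ → ℕ) × (ℕ → ℕ) × (ℕ → ℕ → ℕ) × (κ → ℕ) := fun z =>
    (fun i => z (Sum.inl i), fun j => z (Sum.inr (Sum.inl j)),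
      fun i j => z (Sum.inr (Sum.inr (Sum.inl (i, j)))), fun k => z (Sum.inr (Sum.inr (Sum.inr k))))
  have hP : Measurable P :=
    (measurable_pi_iff.2 fun i => measurable_pi_apply _).prodMk
      ((measurable_pi_iff.2 fun i => measurable_pi_apply _).prodMk
        ((measurable_pi_iff.2 fun i => measurable_pi_iff.2 fun j => measurable_pi_apply _).prodMk
          (measurable_pi_iff.2 fun i => measurable_pi_apply _)))
  have hm : Measurable fun ω i => fam I J W X i ω := measurable_pi_iff.2 h.meas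
  have hm' : Measurable fun ω i => fam I' J' W' X' i ω := measurable_pi_iff.2 h'.meas
  have e := congrArg (Measure.map (F ∘ P)) ht
  rw [Measure.map_map (hF.comp hP) hm, Measure.map_map (hF.comp hP) hm'] at e
  exact ⟨((hF.comp hP).comp hm).aemeasurable, ((hF.comp hP).comp hm').aemeasurable, e⟩

theorem aLawB : ALawB := by
  intro Ω Ω' _ _ μ μ' q W W' h h' F hF
  have ht := transfer μ μ' _ _ _ h h'
  let P : (ℕ × ℕ → ℕ) → (ℕ → ℕ → ℕ) := fun z i j => z (i, j)
  have hP : Measurable P :=
    measurable_pi_iff.2 fun i => measurable_pi_iff.2 fun j => measurable_pi_apply _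
  have hm : Measurable fun ω (v : ℕ × ℕ) => W v.1 v.2 ω := measurable_pi_iff.2 h.meas
  have hm' : Measurable fun ω (v : ℕ × ℕ) => W' v.1 v.2 ω := measurable_pi_iff.2 h'.meas
  have e := congrArg (Measure.map (F ∘ P)) ht
  rw [Measure.map_map (hF.comp hP) hm, Measure.map_map (hF.comp hP) hm'] at e
  exact ⟨((hF.comp hP).comp hm).aemeasurable, ((hF.comp hP).comp hm').aemeasurable, e⟩

theorem aSys : ASys := by
  intro κ _ q a c hq hqa ha hc
  have hp : ∀ i, 0 ≤ par q a (q / a) c i ∧ par q a (q / a) c i < 1 := by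
    have h0 : 0 < a := hq.trans hqa
    rintro (i | i | i | k)
    · exact ⟨h0.le, ha⟩
    · exact ⟨(div_pos hq h0).le, (div_lt_one h0).2 hqa⟩
    · exact ⟨hq.le, hqa.trans ha⟩
    · exact hc k
  obtain ⟨Ω, mΩ, μ, X, hX⟩ := exist _ _ hp
  refine ⟨Ω, mΩ, μ, fun i => X (Sum.inl i), fun j => X (Sum.inr (Sum.inl j)),
    fun i j => X (Sum.inr (Sum.inr (Sum.inl (i, j)))), fun k => X (Sum.inr (Sum.inr (Sum.inr k))),
    ?_⟩
  have e : fam (fun i => X (Sum.inl i)) (fun j => X (Sum.inr (Sum.inl j)))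
      (fun i j => X (Sum.inr (Sum.inr (Sum.inl (i, j)))))
      (fun k => X (Sum.inr (Sum.inr (Sum.inr k)))) = X := by
    funext i
    rcases i with i | i | i | k <;> rfl
  unfold Sys
  rw [e]
  exact hX

theorem aOps : AOps := by
  intro Ω _ μ q
  refine ⟨?_, ?_, ?_⟩
  · intro κ a I J W c X h
    constructor
    · let f : ℕ ⊕ ℕ ⊕ (ℕ × ℕ) ⊕ Empty → ℕ ⊕ ℕ ⊕ (ℕ × ℕ) ⊕ κ :=
        Sum.map id (Sum.map id (Sum.map id Empty.elim))
      have hf : Function.Injective f :=
        Function.injective_id.sumMap (Function.injective_id.sumMap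
          (Function.injective_id.sumMap (fun x => x.elim)))
      have h1 := GeoFam.re h f hf
      have e1 : (fun i => par q a (q / a) c (f i)) =
          par q a (q / a) (fun _ : Empty => (0 : ℝ)) := by
        funext i
        rcases i with i | i | i | k
        · rfl
        · rfl
        · rfl
        · exact k.elim
      have e2 : (fun i => fam I J W X (f i)) = fam I J W (fun _ _ => 0) := by
        funext i
        rcases i with i | i | i | k
        · rfl
        · rfl
        · rfl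
        · exact k.elim
      rw [e1, e2] at h1
      exact h1
    · exact GeoFam.re h (fun v : ℕ × ℕ => Sum.inr (Sum.inr (Sum.inl v)))
        (fun v v' hv => by simpa using hv)
  · intro a I J W hq hqa ha h
    let f : ℕ ⊕ ℕ ⊕ (ℕ × ℕ) ⊕ Empty → ℕ ⊕ ℕ ⊕ (ℕ × ℕ) ⊕ Empty
      | Sum.inl i => Sum.inr (Sum.inl i)
      | Sum.inr (Sum.inl i) => Sum.inl i
      | Sum.inr (Sum.inr (Sum.inl v)) => Sum.inr (Sum.inr (Sum.inl (v.2, v.1)))
      | Sum.inr (Sum.inr (Sum.inr k)) => Sum.inr (Sum.inr (Sum.inr k))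
    have hf : Function.Injective f := by
      rintro (i | i | ⟨i, i'⟩ | k) (j | j | ⟨j, j'⟩ | l) hij <;> simp [f] at hij ⊢ <;>
        first | exact hij | exact k.elim | exact l.elim | exact ⟨hij.2, hij.1⟩
    have h1 := GeoFam.re h f hf
    have e0 : q / (q / a) = a := by
      have : a ≠ 0 := (hq.trans hqa).ne'
      field_simp
    have e1 : (fun i => par q a (q / a) (fun _ : Empty => (0 : ℝ)) (f i)) =
        par q (q / a) (q / (q / a)) (fun _ : Empty => (0 : ℝ)) := by
      funext i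
      rcases i with i | i | i | k
      · rfl
      · rw [e0]; rfl
      · rfl
      · rfl
    have e2 : (fun i => fam I J W (fun _ _ => 0) (f i)) =
        fam J I (fun i j => W j i) (fun _ _ => 0) := by
      funext i
      rcases i with i | i | i | k <;> rfl
    rw [e1, e2] at h1
    exact h1
  · intro W h
    refine ⟨fun x y => ?_, fun m n => ?_, ?_⟩
    · exact GeoFam.re h (fun v : ℕ × ℕ => (v.1 + x, v.2 + y)) (fun v v' hv => by
        simp only [Prod.mk.injEq] at hv
        exact Prod.ext (by omega) (by omega))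
    · have h1 := GeoFam.re h (fun v : ℕ × ℕ =>
        if v.1 < m ∧ v.2 < n then (m - 1 - v.1, n - 1 - v.2) else v) (fun v v' hv => by
          simp only at hv
          split_ifs at hv with a1 a2 a2
          · simp only [Prod.mk.injEq] at hv
            exact Prod.ext (by omega) (by omega)
          · exfalso
            apply a2
            rw [← hv]
            exact ⟨by omega, by omega⟩
          · exfalso
            apply a1
            rw [hv]
            exact ⟨by omega, by omega⟩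
          · exact hv)
      have e2 : (fun v : ℕ × ℕ => (fun v : ℕ × ℕ => W v.1 v.2)
          (if v.1 < m ∧ v.2 < n then (m - 1 - v.1, n - 1 - v.2) else v)) =
          fun v : ℕ × ℕ => fun ω => rot m n (fun i j => W i j ω) v.1 v.2 := by
        funext v ω
        unfold rot
        by_cases hv : v.1 < m ∧ v.2 < n
        · simp only [if_pos hv]
        · simp only [if_neg hv]
      rw [e2] at h1
      exact h1
    · exact GeoFam.re h (fun v : ℕ × ℕ => (v.2, v.1)) (fun v v' hv => by
        simp only [Prod.mk.injEq] at hv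
        exact Prod.ext hv.2 hv.1)

/-! ### blocks -/

theorem iIndepFun_sum {Ω ι κ : Type} [MeasurableSpace Ω] {μ : Measure Ω} (A : ι → Ω → ℕ)
    (B : κ → Ω → ℕ) (mA mB : MeasurableSpace Ω) (hA : ∀ i, Measurable[mA] (A i))
    (hB : ∀ k, Measurable[mB] (B k)) (hAB : Indep mA mB μ) (iA : iIndepFun A μ)
    (iB : iIndepFun B μ) : iIndepFun (Sum.elim A B) μ := by
  rw [iIndepFun_iff_measure_inter_preimage_eq_mul]
  intro S sets hS
  rw [← Finset.toLeft_disjSum_toRight (u := S), Finset.prod_disjSum]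
  have e1 : (⋂ i ∈ S.toLeft.disjSum S.toRight, (Sum.elim A B i) ⁻¹' sets i) =
      (⋂ i ∈ S.toLeft, A i ⁻¹' sets (Sum.inl i)) ∩
        (⋂ k ∈ S.toRight, B k ⁻¹' sets (Sum.inr k)) := by
    ext ω
    simp only [Set.mem_iInter, Finset.mem_disjSum, Set.mem_inter_iff]
    constructor
    · intro h
      exact ⟨fun i hi => h (Sum.inl i) (Or.inl ⟨i, hi, rfl⟩),
        fun k hk => h (Sum.inr k) (Or.inr ⟨k, hk, rfl⟩)⟩
    · rintro ⟨h1, h2⟩ i (⟨j, hj, rfl⟩ | ⟨j, hj, rfl⟩)
      · exact h1 j hj
      · exact h2 j hj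
  rw [e1]
  have m1 : MeasurableSet[mA] (⋂ i ∈ S.toLeft, A i ⁻¹' sets (Sum.inl i)) :=
    @Finset.measurableSet_biInter _ _ mA _ _ fun i hi =>
      hA i (hS _ (Finset.mem_toLeft.1 hi))
  have m2 : MeasurableSet[mB] (⋂ k ∈ S.toRight, B k ⁻¹' sets (Sum.inr k)) :=
    @Finset.measurableSet_biInter _ _ mB _ _ fun i hi =>
      hB i (hS _ (Finset.mem_toRight.1 hi))
  rw [(Indep_iff _ _ _).1 hAB _ _ m1 m2]
  congr 1
  · exact (iIndepFun_iff_measure_inter_preimage_eq_mul.1 iA) S.toLeft
      (sets := fun i => sets (Sum.inl i)) fun i hi => hS _ (Finset.mem_toLeft.1 hi)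
  · exact (iIndepFun_iff_measure_inter_preimage_eq_mul.1 iB) S.toRight
      (sets := fun i => sets (Sum.inr i)) fun i hi => hS _ (Finset.mem_toRight.1 hi)

theorem pBlock : PBlock := by
  intro Ω ι ι' κ _ _ _ _ μ p p' c X Z F hF h h'
  have hX : ∀ i, Measurable (X i) := fun i => h.meas (Sum.inl i)
  have hZ : ∀ i, Measurable (Z i) := fun i => h.meas (Sum.inr i)
  have hZf : GeoFam μ c Z := GeoFam.re h Sum.inr Sum.inr_injective
  let m : ι ⊕ κ → MeasurableSpace Ω := fun i => MeasurableSpace.comap (Sum.elim X Z i) inferInstance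
  have hm : ∀ i, m i ≤ (inferInstance : MeasurableSpace Ω) := fun i => (h.meas i).comap_le
  have hind : iIndep m μ := (iIndepFun_iff_iIndep _ _ _).1 h.indep
  have hI := indep_iSup_of_disjoint hm hind (S := Set.range Sum.inl) (T := Set.range Sum.inr)
    (by
      rw [Set.disjoint_left]
      rintro _ ⟨i, rfl⟩ ⟨j, hj⟩
      exact absurd hj (by simp))
  have hpos : ∀ i, 0 ≤ Sum.elim p' c i ∧ Sum.elim p' c i < 1 := by
    rintro (i | i)
    · exact h'.pos i
    · exact hZf.pos i
  have hmeas : ∀ i, Measurable (Sum.elim (fun i' ω => F (fun i => X i ω) i') Z i) := by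
    rintro (i | i)
    · exact h'.meas i
    · exact hZf.meas i
  refine ⟨h.prob, hpos, hmeas, ?_, ?_⟩
  · refine iIndepFun_sum _ _ _ _ ?_ ?_ hI h'.indep hZf.indep
    · intro i'
      have h1 : Measurable[⨆ i ∈ Set.range Sum.inl, m i] fun ω => fun i => X i ω := by
        refine @measurable_pi_lambda _ _ _ (_) _ _ fun i => ?_
        have h2 : m (Sum.inl i) ≤ ⨆ i ∈ Set.range Sum.inl, m i :=
          le_iSup₂_of_le (Sum.inl i) ⟨i, rfl⟩ le_rfl
        exact (Measurable.mono (comap_measurable (X i)) h2 le_rfl)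
      have h3 : Measurable fun x : ι → ℕ => F x i' := (measurable_pi_apply i').comp hF
      exact h3.comp h1
    · intro k
      have h2 : m (Sum.inr k) ≤ ⨆ i ∈ Set.range Sum.inr, m i :=
        le_iSup₂_of_le (Sum.inr k) ⟨k, rfl⟩ le_rfl
      exact (Measurable.mono (comap_measurable (Z k)) h2 le_rfl)
  · rintro (i | i) k
    · exact h'.law i k
    · exact hZf.law i k

end Pool.Agent.W692.LP
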